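import Pool.Agent.J4H81.PT.XGg

/-!
# Almost all admissible sets of `(log x) ^ (1 / 2 - δ)` elements have prime translates, for all large `x`

Method (helper81): the argument of `AlmostAllLongTuples` (second moments in the residue classes modulo the product of the
small primes, energy of the primes on major arcs with denominators up to `exp (l / 50)`, `l` a large scale) needs a zero-free
region of width `c / l` for all characters of conductor up to `exp l`. For all large `x` either there is such a scale `l` between
`(log x) ^ (1 / 2 + δ')` and `(log x) ^ (1 - δ')`, or there is a very strong exceptional zero `1 - b` of a real primitive character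
`χ₁` modulo `q₁` with a small modulus `log q₁ ≤ 2 (log x) ^ (1 / 2 + δ')`. In the second case the primes are counted with the
weights `(1 + χ₁(p) p ^ (-b)) / (1 - X ^ (-2 b))`, in which the contribution of the exceptional zero cancels in all residue
classes, and which are at most `2 / b`; the zeros of all other L-functions are repelled by the exceptional one (Deuring and
Heilbronn's phenomenon, proved here with Turán's power sums as in the work of Lagarias, Montgomery and Odlyzko), and this more
than compensates the loss of the factor `1 / b ^ 3` in the energy. The loss `(1 / b) ^ k` in the second moment is admissible for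
`k log q₁` smaller than the scale, and this is the reason for the exponent `1 / 2`.
-/

set_option autoImplicit false

namespace Pool.Agent.Results.MP_f686a1_nt.AlmostAllEveryX

open Finset

/-- `A` is admissible: for every prime `p` some residue class modulo `p` contains no element of `A`. -/
def Admissible (A : Finset ℕ) : Prop := ∀ p : ℕ, p.Prime → ∃ c : ℕ, ∀ a ∈ A, ¬ a ≡ c [MOD p]

/-- The admissible sets of `k` integers `0 ≤ a ≤ y`. -/
def admissible (y k : ℕ) : Set (Finset ℕ) := {A | A.card = k ∧ (∀ a ∈ A, a ≤ y) ∧ Admissible A}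

/-- The admissible sets of `k` integers `0 ≤ a ≤ y` for which no positive integer `n ≤ y` makes all the `n + a` prime. -/
def exceptional (y k : ℕ) : Set (Finset ℕ) := {A ∈ admissible y k | ¬ ∃ n : ℕ, 1 ≤ n ∧ n ≤ y ∧ ∀ a ∈ A, (n + a).Prime}

open Classical in
lemma admissible_eq (y k : ℕ) : admissible y k = (Pool.Agent.J4H81.PT.admissibleSets y k : Set (Finset ℕ)) := by
  ext A
  unfold admissible Pool.Agent.J4H81.PT.admissibleSets
  rw [Finset.mem_coe, mem_filter, mem_powersetCard, Set.mem_ofPred_eq]
  constructor
  · rintro ⟨h1, h2, h3⟩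
    exact ⟨⟨fun a ha => mem_range.2 (Nat.lt_succ_of_le (h2 a ha)), h1⟩, h3⟩
  · rintro ⟨⟨h2, h1⟩, h3⟩
    exact ⟨h1, fun a ha => Nat.lt_succ_iff.1 (mem_range.1 (h2 ha)), h3⟩

open Classical in
lemma exceptional_eq (y k : ℕ) : exceptional y k =
    (((Pool.Agent.J4H81.PT.admissibleSets y k).filter (fun A => ¬ Pool.Agent.J4H81.PT.HasPrimes y A) : Finset (Finset ℕ)) :
      Set (Finset ℕ)) := by
  ext A
  unfold exceptional
  rw [admissible_eq, Finset.mem_coe, mem_filter, Set.mem_ofPred_eq, Finset.mem_coe]
  rfl

/-- For every `0 < δ < 1 / 2` there is `x₀` such that for all real `x ≥ x₀`, all integers `y` with `x ^ δ ≤ y ≤ x` and all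
`k ≥ 1` the following holds: among the admissible sets of `k` integers `0 ≤ a ≤ y` at most the proportion
`k / (log x) ^ (1 / 2 - δ)` has no positive integer `n ≤ y` with all the `n + a` prime. -/
theorem result (δ : ℝ) (hδ : 0 < δ) (hδ1 : δ < 1 / 2) : ∃ x₀ : ℝ, 1 ≤ x₀ ∧
    ∀ x : ℝ, x₀ ≤ x → ∀ y : ℕ, x ^ δ ≤ y → (y : ℝ) ≤ x → ∀ k : ℕ, 1 ≤ k →
      ((exceptional y k).ncard : ℝ) ≤ k / Real.log x ^ (1 / 2 - δ) * (admissible y k).ncard := by
  classical
  obtain ⟨x₀, h1, h2⟩ := Pool.Agent.J4H81.PT.main_all hδ hδ1
  refine ⟨x₀, h1, fun x hx y hy hy2 k hk => ?_⟩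
  have h := h2 x hx y hy hy2 k hk
  rw [admissible_eq, exceptional_eq, Set.ncard_coe_finset, Set.ncard_coe_finset]
  convert h using 3

end Pool.Agent.Results.MP_f686a1_nt.AlmostAllEveryX
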