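import Pool.Agent.J4H81.PT.FCe

/-!
# Almost all admissible sets of `(log x) ^ (1 - δ)` elements have prime translates

Method (helper81): the shifts are written as `a = r + W s` with `W` the product of the primes up to `w = (log x) ^ (1 - δ')`.
In a residue class `b` modulo `W` with all the `b + r` prime to `W` a second moment argument over the `s` reduces the
statement to an energy of the primes on major arcs, with errors `o(1 / k)` for each element. The major arcs have
denominators up to `exp ((log x) ^ (1 - δ''))`: the zero-free region and the theorem of Landau and Page give arbitrarily large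
scales without exceptional zeros, and the energy is bounded at these scales by a hybrid large sieve and Vaughan's identity,
so that only a saving of a small power of `x ^ (1 / log ^ (1 - δ'') x)` is needed at each character. The minor arcs are
Vinogradov's.
-/

set_option autoImplicit false

namespace Pool.Agent.Results.MP_f686a1_nt.AlmostAllLongTuples

open Finset

/-- `A` is admissible: for every prime `p` some residue class modulo `p` contains no element of `A`. -/
def Admissible (A : Finset ℕ) : Prop := ∀ p : ℕ, p.Prime → ∃ c : ℕ, ∀ a ∈ A, ¬ a ≡ c [MOD p]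

/-- The admissible sets of `k` integers `0 ≤ a ≤ y`. -/
def admissible (y k : ℕ) : Set (Finset ℕ) := {A | A.card = k ∧ (∀ a ∈ A, a ≤ y) ∧ Admissible A}

/-- The admissible sets of `k` integers `0 ≤ a ≤ y` for which no positive integer `n ≤ y` makes all the `n + a` prime. -/
def exceptional (y k : ℕ) : Set (Finset ℕ) := {A ∈ admissible y k | ¬ ∃ n : ℕ, 1 ≤ n ∧ n ≤ y ∧ ∀ a ∈ A, (n + a).Prime}

open Classical in
lemma admissible_eq (y k : ℕ) : admissible y k = (Pool.Agent.J4H81.PT.admissibleSets y k : Set (Finset ℕ)) := by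
  ext A
  unfold admissible Pool.Agent.J4H81.PT.admissibleSets
  rw [Finset.mem_coe, mem_filter, mem_powersetCard, Set.mem_ofPred_eq]
  constructor
  · rintro ⟨h1, h2, h3⟩
    exact ⟨⟨fun a ha => mem_range.2 (Nat.lt_succ_of_le (h2 a ha)), h1⟩, h3⟩
  · rintro ⟨⟨h2, h1⟩, h3⟩
    exact ⟨h1, fun a ha => Nat.lt_succ_iff.1 (mem_range.1 (h2 ha)), h3⟩

open Classical in
lemma exceptional_eq (y k : ℕ) : exceptional y k =
    (((Pool.Agent.J4H81.PT.admissibleSets y k).filter (fun A => ¬ Pool.Agent.J4H81.PT.HasPrimes y A) : Finset (Finset ℕ)) :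
      Set (Finset ℕ)) := by
  ext A
  unfold exceptional
  rw [admissible_eq, Finset.mem_coe, mem_filter, Set.mem_ofPred_eq, Finset.mem_coe]
  rfl

/-- For every `0 < δ < 1` there are arbitrarily large `X` such that for all `x` with `X ≤ x ≤ exp ((log X) ^ (1 + δ / 2))`, all
integers `y` with `x ^ δ ≤ y ≤ x` and all `k ≥ 1` the following holds: among the admissible sets of `k` integers `0 ≤ a ≤ y`
at most the proportion `k / (log x) ^ (1 - δ)` has no positive integer `n ≤ y` with all the `n + a` prime. -/
theorem result (δ : ℝ) (hδ : 0 < δ) (hδ1 : δ < 1) (x₀ : ℝ) : ∃ X : ℝ, x₀ ≤ X ∧ 1 ≤ X ∧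
    ∀ x : ℝ, X ≤ x → Real.log x ≤ Real.log X ^ (1 + δ / 2) →
      ∀ y : ℕ, x ^ δ ≤ y → (y : ℝ) ≤ x → ∀ k : ℕ, 1 ≤ k →
        ((exceptional y k).ncard : ℝ) ≤ k / Real.log x ^ (1 - δ) * (admissible y k).ncard := by
  classical
  obtain ⟨X, h1, h2, h3⟩ := Pool.Agent.J4H81.PT.main hδ hδ1 x₀
  refine ⟨X, h1, h2, fun x hx hx2 y hy hy2 k hk => ?_⟩
  have h := h3 x hx hx2 y hy hy2 k hk
  rw [admissible_eq, exceptional_eq, Set.ncard_coe_finset, Set.ncard_coe_finset]
  convert h using 3

end Pool.Agent.Results.MP_f686a1_nt.AlmostAllLongTuples
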