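import Pool.Agent.J4H77.TU.Las

/-!
# Prime tuples for all the shifts near many given tuples of integers at the same time, up to sums of very few elements of an
arbitrary set which meets every interval `[x, l x]`

The proof: the elements of the set are chosen at random, independently for every coordinate; the law of their sum has a thin
large spectrum (starting files, `Pool.Agent.Y885.las_lawP`), so that the second moment method for prime tuples with random shifts
(starting files, `Pool.Agent.Y885.tl_tuplesW`) applies to all the translates and reflections of the law, with an exceptional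
probability of an arbitrary power of the logarithm. The definitions are those of the starting file `ExchangeableMultiples`.
-/

set_option autoImplicit false

namespace Pool.Agent.Results.MP_f686a1_nt.ElementsOfAnySets

open Finset

/-- The set `{0, a 1, ..., a s}` is admissible: for every prime `p` some class modulo `p` contains none of its elements. -/
def Admissible {s : ℕ} (a : Fin s → ℕ) : Prop :=
  ∀ p : ℕ, p.Prime → ∃ c : ℕ, ¬ 0 ≡ c [MOD p] ∧ ∀ i, ¬ a i ≡ c [MOD p]

/-- the number of the `n ≤ N` for which `n` and all the numbers `n + a i` are primes -/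
def count {s : ℕ} (a : Fin s → ℕ) (N : ℕ) : ℕ := ((Icc 1 N).filter (fun n : ℕ => n.Prime ∧ ∀ i, (n + a i).Prime)).card

/-- the number of the classes `r` modulo `p` for which `p` divides one of the numbers `r`, `r + a i` -/
def nu {s : ℕ} (a : Fin s → ℕ) (p : ℕ) : ℕ := ((range p).filter (fun r => p ∣ r ∨ ∃ i, p ∣ r + a i)).card

/-- the product over the primes `p ≤ z` which occurs in the singular series -/
noncomputable def sing {s : ℕ} (a : Fin s → ℕ) (z : ℕ) : ℝ :=
  ∏ p ∈ (Icc 1 z).filter Nat.Prime, (1 - (nu a p : ℝ) / p) / (1 - 1 / (p : ℝ)) ^ (s + 1)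

/-- The singular series converges, and if `{0, a 1, ..., a s}` is admissible then its value `S` is positive and the number
of the `n ≤ N` for which `n` and all the `n + a i` are primes is `S N / log ^ (s + 1) N` up to a relative error of at most `ε`. -/
def HardyLittlewood {s : ℕ} (ε : ℝ) (N : ℕ) (a : Fin s → ℕ) : Prop :=
  ∃ S : ℝ, Filter.Tendsto (fun z => sing a z) Filter.atTop (nhds S) ∧
    (Admissible a → 0 < S ∧
      |(count a N : ℝ) - S * (N / Real.log N ^ (s + 1))| ≤ ε * (S * (N / Real.log N ^ (s + 1))))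

lemma sing_eq {s : ℕ} (a : Fin s → ℕ) (z : ℕ) : Pool.Agent.H373R2.T7.singZ (fun i => (a i : ℤ)) z = sing a z := by
  unfold Pool.Agent.H373R2.T7.singZ sing
  apply prod_congr rfl
  intro p _
  have : Pool.Agent.H373R2.T7.nuP (fun i => (a i : ℤ)) p = nu a p := by
    unfold Pool.Agent.H373R2.T7.nuP nu
    congr 1
    apply filter_congr
    intro r _
    constructor
    · rintro (h | ⟨i, h⟩)
      · exact Or.inl h
      · refine Or.inr ⟨i, ?_⟩
        simp only at h
        exact_mod_cast h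
    · rintro (h | ⟨i, h⟩)
      · exact Or.inl h
      · refine Or.inr ⟨i, ?_⟩
        simp only
        exact_mod_cast h
  rw [this]

lemma adm_of {s : ℕ} (a : Fin s → ℕ) (h : Admissible a) : Pool.Agent.H373R2.T7.Admissible (fun i => (a i : ℤ)) := by
  intro p hp
  obtain ⟨c, h1, h2⟩ := h p hp
  refine ⟨-(c : ℤ), ?_, fun i => ?_⟩
  · intro h3
    apply h1
    rw [Int.dvd_neg] at h3
    have h4 : p ∣ c := by exact_mod_cast h3
    exact ((Nat.modEq_zero_iff_dvd).2 h4).symm
  · intro h3
    apply h2 i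
    apply Nat.ModEq.symm
    rw [Nat.modEq_iff_dvd]
    have e : ((a i : ℕ) : ℤ) - (c : ℤ) = -(c : ℤ) + a i := by ring
    rw [e]
    exact h3

lemma hl_of {s : ℕ} {ε : ℝ} {U N : ℕ} {a : Fin s → ℕ} (h : Pool.Agent.W93.TD.HLs ε U N a) : HardyLittlewood ε N a := by
  obtain ⟨S, h1, -, h3⟩ := h
  refine ⟨S, ?_, fun hadm => h3 (adm_of a hadm)⟩
  simp only [sing_eq] at h1
  exact h1

/-- Let `s ≥ 1`, `l ≥ 2`, `Q ≥ 1`, `T` and `W` be fixed. There is a constant `C` such that for all `H`, `B` and `ε > 0` there is an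
`N₀` with the following property. Let `D` be ANY set of integers with an element in every interval `[x, l x]`, `x ≥ 1`, let
`N ≥ N₀`, and let `Y` be a set of at most `log ^ T N` tuples `y 1, ..., y s` of integers between `N` and `B N`. There are sets
`S 1, ..., S s` of at most `C (log log N) ^ 2` elements of `D`, all between `log ^ H N` and `N / log ^ H N`, with sums `σ i`
divisible by `Q`, such that for all `y ∈ Y` and ALL the tuples `a 1, ..., a s` of integers for which every `a i` is at a distance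
of at most `log ^ W N` from `y i + σ i` or from `y i - σ i`: the singular series of the set `{0, a 1, ..., a s}` converges, and if
this set is admissible then the formula of Hardy and Littlewood holds for the number of the `n ≤ N` for which `n` and all the
numbers `n + a i` are primes, and there is such an `n`. -/
theorem result (s l Q T W : ℕ) (hs : 1 ≤ s) (hl : 2 ≤ l) (hQ : 1 ≤ Q) : ∃ C : ℝ, ∀ (H B : ℕ) (ε : ℝ), 0 < ε →
    ∃ N₀ : ℕ, ∀ D : Set ℕ, (∀ x : ℕ, 1 ≤ x → ∃ a ∈ D, x ≤ a ∧ a ≤ l * x) → ∀ N : ℕ, N₀ ≤ N →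
    ∀ Y : Finset (Fin s → ℕ), (∀ y ∈ Y, ∀ i, N ≤ y i ∧ y i ≤ B * N) → (Y.card : ℝ) ≤ Real.log N ^ T →
    ∃ S : Fin s → Finset ℕ, (∀ i, ∀ a ∈ S i, a ∈ D ∧ Real.log N ^ H ≤ a ∧ (a : ℝ) ≤ N / Real.log N ^ H) ∧
      (∀ i, ((S i).card : ℝ) ≤ C * Real.log (Real.log N) ^ 2) ∧ (∀ i, Q ∣ ∑ a ∈ S i, a) ∧
      ∀ y ∈ Y, ∀ a : Fin s → ℕ,
        (∀ i, |(((a i : ℤ) - ((y i : ℤ) + ((∑ x ∈ S i, x : ℕ) : ℤ)) : ℤ) : ℝ)| ≤ Real.log N ^ W ∨
          |(((a i : ℤ) - ((y i : ℤ) - ((∑ x ∈ S i, x : ℕ) : ℤ)) : ℤ) : ℝ)| ≤ Real.log N ^ W) →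
        HardyLittlewood ε N a ∧ (Admissible a → ∃ n : ℕ, 1 ≤ n ∧ n ≤ N ∧ n.Prime ∧ ∀ i, (n + a i).Prime) := by
  obtain ⟨C, hC⟩ := Pool.Agent.J4H77.TU.las_tuples s l Q T W hs hl hQ
  refine ⟨C, fun H B ε hε => ?_⟩
  obtain ⟨ε', hε'⟩ : ∃ ε', ε' = min ε (1 / 2) := ⟨_, rfl⟩
  have he0 : 0 < ε' := by rw [hε']; exact lt_min hε (by norm_num)
  have he1 : ε' ≤ ε := by rw [hε']; exact min_le_left _ _
  have he2 : ε' ≤ 1 / 2 := by rw [hε']; exact min_le_right _ _
  obtain ⟨N₀, h0⟩ := hC H B ε' he0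
  refine ⟨N₀ + 3, fun D hD N hN Y hY hYc => ?_⟩
  obtain ⟨S, s1, s2, s3, s4⟩ := h0 D hD N (by omega) Y hY hYc
  refine ⟨S, s1, s2, s3, fun y hy a ha => ?_⟩
  obtain ⟨V, v1, v2⟩ := hl_of (s4 y hy a ha)
  have hN3 : (3 : ℝ) ≤ N := by exact_mod_cast (by omega : 3 ≤ N)
  have hlog : 0 < Real.log (N : ℝ) := Real.log_pos (by linarith)
  refine ⟨⟨V, v1, fun hadm => ?_⟩, fun hadm => ?_⟩
  · obtain ⟨w1, w2⟩ := v2 hadm
    refine ⟨w1, w2.trans ?_⟩
    apply mul_le_mul_of_nonneg_right he1
    positivity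
  · obtain ⟨w1, w2⟩ := v2 hadm
    have h3 : 0 < V * (N / Real.log N ^ (s + 1)) := by positivity
    have h4 := (abs_le.1 w2).1
    have h5 : 0 < (count a N : ℝ) := by nlinarith
    have h6 : 0 < count a N := by exact_mod_cast h5
    unfold count at h6
    obtain ⟨n, hn⟩ := card_pos.1 h6
    rw [mem_filter, mem_Icc] at hn
    exact ⟨n, hn.1.1, hn.1.2, hn.2.1, hn.2.2⟩

end Pool.Agent.Results.MP_f686a1_nt.ElementsOfAnySets
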