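import Mathlib
import Pool.Agent.J4H73.AQ.St

set_option autoImplicit false

/-!
# Every admissible set of shifts: the right order of magnitude in a class, and Szemerédi's theorem

For every `k` and `δ > 0` there are `c, ρ > 0` and `0 < θ ≤ δ` such that for all large real `x` and EVERY admissible set
`A` of at most `k` integers with `|a| ≤ x / 10 ^ 7` (no exceptional sets) and all `a₁ ≠ a₂` in `A` there are a modulus
`W ≤ x ^ (1 / 700)` and a class `r` for which the set `G` of the positive integers `n ≡ r (mod W)`, `x / 5 < n ≤ x`, with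

* `n + a₁` prime, `n + a₂` a prime or a product of two primes, both at least `x ^ (1 / 9)`,
* all the `n + a`, `a ∈ A`, without prime factors `≤ x ^ θ`,
* every other integer at distance at most `c R(x)` from `n + a₁` has a prime factor `≤ x ^ θ` (`R`: Rankin's function),

has at least `ρ (x / W) (W / (φ(W) log x)) ^ |A|` elements, which is the order of magnitude predicted for tuples of
primes in a class modulo `W`; and for all `K` and `η > 0` every subset of `G` with at least `η |G|` elements contains at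
least `x ^ (49 / 50)` progressions of `K + 1` terms with one and the same difference `W d`, `1 ≤ d ≤ (log x) ^ B`.

So an arbitrary admissible pattern of consecutive almost primes, with a prime and a product of at most two primes at
prescribed positions and isolated on both sides, occurs along arbitrarily long arithmetic progressions.

Method: Chen's theorem (weighted linear sieve, Kuhn's weights, switching) inside a residue class modulo the product of
the small primes obtained by the Erdős-Rankin method with `k` free positions, now with the order of magnitude of the main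
term, and the relative Szemerédi theorem for arbitrary sifted sets with narrow progressions
(`Pool.Agent.Y843.HS.fin` of the starting files) in short intervals.
-/

namespace Pool.Agent.Results.MP_f686a1_nt.ProgressionsOfEveryPattern

open Finset

/-- `A` is admissible: for every prime `q` some translate of `A` contains no multiple of `q`
(equivalently, `A` does not meet all the residue classes modulo `q`) -/
def Admissible (A : Finset ℤ) : Prop := ∀ q : ℕ, q.Prime → ∃ r : ℤ, ∀ a ∈ A, ¬ (q : ℤ) ∣ r + a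

/-- Rankin's function -/
noncomputable def rankin (x : ℝ) : ℝ :=
  Real.log x * Real.log (Real.log x) * Real.log (Real.log (Real.log (Real.log x))) /
    Real.log (Real.log (Real.log x)) ^ 2

/-- `m` has at most two prime factors (counted with multiplicity), all of them `≥ Q` -/
def AlmostPrime (Q : ℝ) (m : ℤ) : Prop :=
  m.natAbs.primeFactorsList.length ≤ 2 ∧ ∀ q : ℕ, q.Prime → (q : ℤ) ∣ m → Q ≤ q

/-- `m` has no prime factor `≤ w` -/
def Rough (w : ℝ) (m : ℤ) : Prop := ∀ q : ℕ, q.Prime → (q : ℤ) ∣ m → w < q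

open Classical in
/-- The good translates `n ≡ r (mod W)`, `x / 5 < n ≤ x`: all the `n + a` are positive and have no prime factor `≤ w`,
`n + a₁` is prime, `n + a₂` has at most two prime factors, all `≥ x ^ (1 / 9)`, and the integers at distance at most `d`
from `n + a₁` without prime factors `≤ w` are all of the form `n + a` with `a ∈ A`. -/
noncomputable def good (x w d : ℝ) (A : Finset ℤ) (a₁ a₂ : ℤ) (W r : ℕ) : Finset ℕ :=
  (Icc 1 ⌊x⌋₊).filter (fun n : ℕ => x / 5 < n ∧ n ≡ r [MOD W] ∧ (∀ a ∈ A, 0 < n + a ∧ Rough w (n + a)) ∧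
    Prime ((n : ℤ) + a₁) ∧ AlmostPrime (x ^ (1 / 9 : ℝ)) (n + a₂) ∧
    ∀ z : ℤ, |(z : ℝ) - (n + a₁)| ≤ d → Rough w z → ∃ a ∈ A, z = n + a)

open Classical in
theorem good_eq (x θ c : ℝ) (A : Finset ℤ) (a₁ a₂ : ℤ) (ha₁ : a₁ ∈ A) (W r : ℕ) :
    good x (x ^ θ) (c * rankin x) A a₁ a₂ W r = Pool.Agent.J4H73.AQ.GS θ c x A a₁ a₂ W r := by
  ext n
  rw [Pool.Agent.J4H73.AQ.mem_GS]
  unfold good Pool.Agent.J4H73.AQ.GoodN
  rw [mem_filter, mem_Icc]
  constructor
  · rintro ⟨g0, g1, g2, g3, g4, g5, g6⟩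
    refine ⟨g0, g1, g2, (g3 a₁ ha₁).1, Int.prime_iff_natAbs_prime.1 g4, g5, fun a ha => ⟨(g3 a ha).1, (g3 a ha).2⟩, ?_⟩
    intro z hz hza
    by_contra hc
    push Not at hc
    obtain ⟨a, ha, he⟩ := g6 z hz (fun q hq1 hq2 => by
      by_contra h
      exact hc q hq1 (not_lt.1 h) hq2)
    exact hza a ha he
  · rintro ⟨g0, g1, g2, _, g4, g5, g6, g7⟩
    refine ⟨g0, g1, g2, fun a ha => ⟨(g6 a ha).1, (g6 a ha).2⟩, Int.prime_iff_natAbs_prime.2 g4, g5, ?_⟩
    intro z hz hr
    by_contra hc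
    push Not at hc
    obtain ⟨q, hq1, hq2, hq3⟩ := g7 z hz hc
    exact absurd (hr q hq1 hq3) (not_lt.2 hq2)

/-- **Every admissible set is, in the expected number of translates and along long arithmetic progressions, a set of
consecutive almost primes which contains a prime and a product of at most two primes at prescribed positions.** -/
theorem result (k : ℕ) (δ : ℝ) (hδ : 0 < δ) : ∃ c : ℝ, 0 < c ∧ ∃ ρ : ℝ, 0 < ρ ∧ ∃ θ : ℝ, 0 < θ ∧ θ ≤ δ ∧
    ∃ W r : ℝ → Finset ℤ → ℤ → ℤ → ℕ, ∀ (K : ℕ) (η : ℝ), 0 < η → ∃ (B : ℕ) (x₀ : ℝ), ∀ x : ℝ, x₀ ≤ x →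
    ∀ A : Finset ℤ, A.card ≤ k → Admissible A → (∀ a ∈ A, |(a : ℝ)| ≤ x / 10000000) →
      ∀ a₁ ∈ A, ∀ a₂ ∈ A, a₁ ≠ a₂ →
        0 < W x A a₁ a₂ ∧ (W x A a₁ a₂ : ℝ) ≤ x ^ (1 / 700 : ℝ) ∧
        ρ * (x / W x A a₁ a₂ * (W x A a₁ a₂ / ((W x A a₁ a₂).totient * Real.log x)) ^ A.card) ≤
          ((good x (x ^ θ) (c * rankin x) A a₁ a₂ (W x A a₁ a₂) (r x A a₁ a₂)).card : ℝ) ∧
        ∀ U ⊆ good x (x ^ θ) (c * rankin x) A a₁ a₂ (W x A a₁ a₂) (r x A a₁ a₂),
          η * ((good x (x ^ θ) (c * rankin x) A a₁ a₂ (W x A a₁ a₂) (r x A a₁ a₂)).card : ℝ) ≤ (U.card : ℝ) →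
          ∃ d : ℕ, 1 ≤ d ∧ (d : ℝ) ≤ (Real.log x) ^ B ∧
            x ^ (49 / 50 : ℝ) ≤ ((U.filter (fun n => ∀ j ≤ K, n + j * (W x A a₁ a₂ * d) ∈ U)).card : ℝ) := by
  by_cases hk : k ≤ 1
  · refine ⟨1, one_pos, 1, one_pos, δ, hδ, le_rfl, fun _ _ _ _ => 1, fun _ _ _ _ => 1, fun K η hη => ⟨0, 0, ?_⟩⟩
    intro x _ A hA _ _ a₁ ha₁ a₂ ha₂ hne
    have := Finset.one_lt_card.2 ⟨a₁, ha₁, a₂, ha₂, hne⟩
    omega
  obtain ⟨m, hm⟩ : ∃ m : ℕ, k = m + 1 := ⟨k - 1, by omega⟩
  obtain ⟨c, hc, ρ, hρ, θ, h1, h2, W, r, H⟩ := Pool.Agent.J4H73.AQ.setsAP m (by omega) δ hδ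
  refine ⟨c, hc, ρ, hρ, θ, h1, h2, W, r, fun K η hη => ?_⟩
  obtain ⟨B, x₀, H⟩ := H K η hη
  refine ⟨B, x₀, fun x hx A hA hadm hAx a₁ ha₁ a₂ ha₂ hne => ?_⟩
  have h := H x hx A (by omega) hadm hAx a₁ ha₁ a₂ ha₂ hne
  rw [good_eq x θ c A a₁ a₂ ha₁]
  exact h

end Pool.Agent.Results.MP_f686a1_nt.ProgressionsOfEveryPattern
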